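import Pool.Agent.PST.StmtsUC

/-!
# Squad PST, block UC, row QFR (335): the frame of the quotient
-/

set_option autoImplicit false

open scoped BigOperators TensorProduct PowerSeries

noncomputable section

namespace Pool.Agent.PST.UC.H87

open Pool.Agent.PFC (tw IsTv)
open Pool.Agent.PFD.D2b (FrR)
open Pool.Agent.PSS
open Pool.Agent.PSS.S0

section quot

variable {V Ω : Type} [CommGroup V] [MulAction (V × V) Ω] (N : Subgroup V)

/-- the relation `ω₂ = (n, 1) ω₁`, `n ∈ N` -/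
def relN : Setoid Ω where
  r ω₁ ω₂ := ∃ n ∈ N, ((n, 1) : V × V) • ω₁ = ω₂
  iseqv := by
    refine ⟨fun ω => ⟨1, N.one_mem, one_smul (V × V) ω⟩, ?_, ?_⟩
    · rintro ω₁ ω₂ ⟨n, hn, rfl⟩
      refine ⟨n⁻¹, N.inv_mem hn, ?_⟩
      rw [smul_smul, Prod.mk_mul_mk, inv_mul_cancel, one_mul]
      exact one_smul (V × V) ω₁
    · rintro ω₁ ω₂ ω₃ ⟨n, hn, rfl⟩ ⟨m, hm, rfl⟩
      refine ⟨m * n, N.mul_mem hm hn, ?_⟩
      rw [smul_smul, Prod.mk_mul_mk, one_mul]

/-- the quotient -/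
def Qn (Ω : Type) [MulAction (V × V) Ω] : Type := Quotient (relN (Ω := Ω) N)

/-- the projection -/
def mkN (ω : Ω) : Qn N Ω := Quotient.mk (relN N) ω

/-- a representative -/
def outN (q : Qn N Ω) : Ω := Quotient.out q

theorem mkN_outN (q : Qn N Ω) : mkN N (outN N q) = q := Quotient.out_eq q

theorem mkN_eq {ω₁ ω₂ : Ω} : mkN N ω₁ = mkN N ω₂ ↔ ∃ n ∈ N, ((n, 1) : V × V) • ω₁ = ω₂ :=
  ⟨fun h => Quotient.exact h, fun h => Quotient.sound h⟩

theorem mkN_smul (hnn : ∀ n ∈ N, ∀ ω : Ω, ((n, n) : V × V) • ω = ω) {u u' v v' : V} {ω ω' : Ω}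
    (hu : u⁻¹ * u' ∈ N) (hv : v⁻¹ * v' ∈ N) (h : mkN N ω = mkN N ω') :
    mkN N (((u, v) : V × V) • ω) = mkN N (((u', v') : V × V) • ω') := by
  rw [mkN_eq] at h ⊢
  obtain ⟨n, hn, rfl⟩ := h
  refine ⟨u⁻¹ * u' * (v⁻¹ * v')⁻¹ * n, N.mul_mem (N.mul_mem hu (N.inv_mem hv)) hn, ?_⟩
  have h1 : ((u', v') : V × V) • ((n, 1) : V × V) • ω =
      ((u', v') : V × V) • ((n, 1) : V × V) • (((v⁻¹ * v')⁻¹, (v⁻¹ * v')⁻¹) : V × V) • ω := by
    rw [hnn _ (N.inv_mem hv)]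
  rw [h1, smul_smul, smul_smul, smul_smul]
  congr 1
  rw [Prod.mk_mul_mk, Prod.mk_mul_mk, Prod.mk_mul_mk, Prod.mk.injEq]
  constructor
  · rw [show u⁻¹ * u' * (v⁻¹ * v')⁻¹ * n * u = u * u⁻¹ * (u' * n * (v⁻¹ * v')⁻¹) from by ac_rfl,
      mul_inv_cancel, one_mul]
  · rw [one_mul, mul_one, mul_inv, inv_inv, mul_comm v v'⁻¹, mul_inv_cancel_left]

/-- the action on the quotient -/
@[reducible]
def actN (hnn : ∀ n ∈ N, ∀ ω : Ω, ((n, n) : V × V) • ω = ω) :
    MulAction ((V ⧸ N) × (V ⧸ N)) (Qn N Ω) where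
  smul g q := mkN N (((Quotient.out g.1, Quotient.out g.2) : V × V) • outN N q)
  one_smul q := by
    show mkN N (((Quotient.out (1 : V ⧸ N), Quotient.out (1 : V ⧸ N)) : V × V) • outN N q) = q
    have h1 : ((1 : V))⁻¹ * (Quotient.out (1 : V ⧸ N)) ∈ N := by
      rw [← QuotientGroup.eq]
      exact (QuotientGroup.out_eq' (1 : V ⧸ N)).symm
    rw [← mkN_smul N hnn h1 h1 (rfl : mkN N (outN N q) = mkN N (outN N q))]
    rw [show ((1, 1) : V × V) = 1 from rfl, one_smul, mkN_outN]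
  mul_smul g h q := by
    show mkN N (((Quotient.out (g * h).1, Quotient.out (g * h).2) : V × V) • outN N q) =
      mkN N (((Quotient.out g.1, Quotient.out g.2) : V × V) •
        outN N (mkN N (((Quotient.out h.1, Quotient.out h.2) : V × V) • outN N q)))
    have h1 : ∀ x y : V ⧸ N, (Quotient.out x * Quotient.out y)⁻¹ * Quotient.out (x * y) ∈ N := by
      intro x y
      rw [← QuotientGroup.eq, QuotientGroup.mk_mul, QuotientGroup.out_eq', QuotientGroup.out_eq',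
        QuotientGroup.out_eq']
    have h2 : ∀ x : V, x⁻¹ * x ∈ N := fun x => by
      rw [inv_mul_cancel]
      exact N.one_mem
    rw [mkN_smul N hnn (h2 _) (h2 _) (mkN_outN N (mkN N
      (((Quotient.out h.1, Quotient.out h.2) : V × V) • outN N q))), smul_smul, Prod.mk_mul_mk]
    exact (mkN_smul N hnn (h1 g.1 h.1) (h1 g.2 h.2) rfl).symm

theorem actN_mk (hnn : ∀ n ∈ N, ∀ ω : Ω, ((n, n) : V × V) • ω = ω) (u v : V) (ω : Ω) :
    (actN N hnn).smul ((u : V ⧸ N), (v : V ⧸ N)) (mkN N ω) =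
      mkN N (((u, v) : V × V) • ω) := by
  have h1 : ∀ x : V, (Quotient.out (x : V ⧸ N))⁻¹ * x ∈ N := by
    intro x
    rw [← QuotientGroup.eq]
    exact QuotientGroup.out_eq' (x : V ⧸ N)
  exact mkN_smul N hnn (h1 u) (h1 v) (mkN_outN N (mkN N ω))

end quot

theorem qfr : QfrStmt := by
  classical
  intro ℓ _ R V E A H Ω _ _ _ _ _ _ _ _ _ _ _ φ α N φH αH π b c hV hE hQ hF hφN hφH
  obtain ⟨hcen, hsurj, hker, hom⟩ := hQ
  obtain ⟨⟨hb1, hc1, hfr⟩, hst, hnn⟩ := hF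
  let act : MulAction ((V ⧸ N) × (V ⧸ N)) (Qn N Ω) := actN N hnn
  have hsg : ∀ (u v : V) (ω : Ω), (((u : V ⧸ N), (v : V ⧸ N)) : (V ⧸ N) × (V ⧸ N)) • mkN N ω =
      mkN N (((u, v) : V × V) • ω) := fun u v ω => actN_mk N hnn u v ω
  let fin : Fintype (Qn N Ω) := Fintype.ofSurjective (mkN N) (fun q => ⟨outN N q, mkN_outN N q⟩)
  have hbw : ∀ (u v : V) (a : A), bw R αH ((u : V ⧸ N), (v : V ⧸ N)) (π a) =
      π (bw R α (u, v) a) := by
    intro u v a
    show αH (u : V ⧸ N) * (π a * αH ((v : V ⧸ N)⁻¹)) = π (α u * (a * α v⁻¹))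
    rw [map_mul, map_mul, hom u, ← hom v⁻¹, QuotientGroup.mk_inv]
  have hpb : ∀ n ∈ N, ∀ ω, π (b (((n, 1) : V × V) • ω)) = π (b ω) := by
    intro n hn ω
    rw [hb1, ← hbw, (QuotientGroup.eq_one_iff n).2 hn]
    show bw R αH (1 : (V ⧸ N) × (V ⧸ N)) (π (b ω)) = _
    rw [map_one]
    rfl
  have hb' : ∀ ω, π (b (outN N (mkN N ω))) = π (b ω) := by
    intro ω
    obtain ⟨n, hn, h⟩ := (mkN_eq N).1 (mkN_outN N (mkN N ω))
    have h1 := hpb n hn (outN N (mkN N ω))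
    rw [h] at h1
    exact h1.symm
  -- the coordinates
  have hsum : ∀ (u v : V) (q : Qn N Ω) (a : A),
      ∑ ω ∈ Finset.univ.filter (fun ω => mkN N ω =
        (((u : V ⧸ N), (v : V ⧸ N)) : (V ⧸ N) × (V ⧸ N)) • q), c ω (bw R α (u, v) a) =
      ∑ ω ∈ Finset.univ.filter (fun ω => mkN N ω = q), c ω a := by
    intro u v q a
    symm
    refine Finset.sum_bij (fun ω _ => ((u, v) : V × V) • ω) ?_ ?_ ?_ ?_
    · intro ω hω
      rw [Finset.mem_filter] at hω ⊢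
      refine ⟨Finset.mem_univ _, ?_⟩
      rw [← hsg, hω.2]
    · intro ω _ ω' _ h
      exact smul_left_cancel _ h
    · intro ω hω
      rw [Finset.mem_filter] at hω
      refine ⟨((u, v) : V × V)⁻¹ • ω, ?_, smul_inv_smul _ _⟩
      rw [Finset.mem_filter]
      refine ⟨Finset.mem_univ _, ?_⟩
      have h1 : (((u : V ⧸ N), (v : V ⧸ N)) : (V ⧸ N) × (V ⧸ N)) •
          mkN N (((u, v) : V × V)⁻¹ • ω) =
          (((u : V ⧸ N), (v : V ⧸ N)) : (V ⧸ N) × (V ⧸ N)) • q := by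
        rw [hsg, smul_inv_smul, hω.2]
      exact smul_left_cancel _ h1
    · intro ω _
      exact (hc1 _ _ _).symm
  have hc0 : ∀ (q : Qn N Ω) (a : A), π a = 0 →
      ∑ ω ∈ Finset.univ.filter (fun ω => mkN N ω = q), c ω a = 0 := by
    intro q a ha
    have h0 : Aug R (α.comp N.subtype) ⊤ ≤
        LinearMap.ker (∑ ω ∈ Finset.univ.filter (fun ω => mkN N ω = q), c ω) := by
      refine Submodule.span_le.2 ?_
      rintro x ⟨n, y, -, rfl⟩
      show _ = _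
      rw [LinearMap.sum_apply]
      have h2 := hsum n 1 q y
      have h3 : ((((n : V) : V ⧸ N), ((1 : V) : V ⧸ N)) : (V ⧸ N) × (V ⧸ N)) • q = q := by
        rw [(QuotientGroup.eq_one_iff (n : V)).2 n.2]
        exact one_smul _ q
      rw [h3] at h2
      have h4 : bw R α ((n : V), 1) y = α n * y := by
        show α n * (y * α 1⁻¹) = _
        rw [inv_one, map_one, mul_one]
      rw [h4] at h2
      have h5 : ∀ ω, c ω ((α.comp N.subtype n - 1) * y) = c ω (α n * y) - c ω y := by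
        intro ω
        rw [sub_mul, one_mul, map_sub]
        rfl
      rw [Finset.sum_congr rfl (fun ω _ => h5 ω), Finset.sum_sub_distrib, h2, sub_self]
    have h1 := h0 ((hker a).1 ha)
    rw [LinearMap.mem_ker, LinearMap.sum_apply] at h1
    exact h1
  have hcx : ∀ q : Qn N Ω, ∃ f : H →ₗ[R] R, ∀ a, f (π a) =
      ∑ ω ∈ Finset.univ.filter (fun ω => mkN N ω = q), c ω a := by
    intro q
    have hk : ∀ h a, π a = h → ∑ ω ∈ Finset.univ.filter (fun ω => mkN N ω = q),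
        c ω (Function.surjInv hsurj h) =
        ∑ ω ∈ Finset.univ.filter (fun ω => mkN N ω = q), c ω a := by
      intro h a ha
      have h1 := hc0 q (Function.surjInv hsurj h - a) (by
        rw [map_sub, Function.surjInv_eq hsurj, ha, sub_self])
      rw [Finset.sum_congr rfl (fun ω _ => map_sub (c ω) _ _), Finset.sum_sub_distrib] at h1
      exact sub_eq_zero.1 h1
    refine ⟨{ toFun := fun h => ∑ ω ∈ Finset.univ.filter (fun ω => mkN N ω = q),
                c ω (Function.surjInv hsurj h)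
              map_add' := ?_
              map_smul' := ?_ }, fun a => hk _ a rfl⟩
    · intro x y
      rw [hk (x + y) (Function.surjInv hsurj x + Function.surjInv hsurj y) (by
        rw [map_add, Function.surjInv_eq hsurj, Function.surjInv_eq hsurj]), ← Finset.sum_add_distrib]
      exact Finset.sum_congr rfl fun ω _ => map_add _ _ _
    · intro r x
      rw [hk (r • x) (r • Function.surjInv hsurj x) (by
        rw [map_smul, Function.surjInv_eq hsurj]), RingHom.id_apply, Finset.smul_sum]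
      exact Finset.sum_congr rfl fun ω _ => map_smul _ _ _
  choose c' hc' using hcx
  -- the stabilisers
  have hfix : ∀ (v : V) (ω : Ω),
      (((v : V ⧸ N), (v : V ⧸ N)) : (V ⧸ N) × (V ⧸ N)) • mkN N ω = mkN N ω →
      ((v, v) : V × V) • ω = ω := by
    intro v ω h
    rw [hsg] at h
    obtain ⟨n, hn, h1⟩ := (mkN_eq N).1 h
    obtain ⟨e, S, hS⟩ := hst ω
    rw [smul_smul, Prod.mk_mul_mk, one_mul] at h1
    have h2 : ((n * v, v) : V × V) ∈ MulAction.stabilizer (V × V) ω := h1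
    rw [hS] at h2
    obtain ⟨s, hs, h3⟩ := h2
    have h4 : φ e s = n * v ∧ s = v := Prod.mk.inj h3
    obtain ⟨h5, rfl⟩ := h4
    have h6 : ∀ k : ℕ, φ (e ^ k) s = n ^ k * s := by
      intro k
      induction k with
      | zero => simp
      | succ k ih =>
        rw [pow_succ', map_mul, MulAut.mul_apply, ih, map_mul, map_pow, hφN e n hn, h5,
          ← mul_assoc, ← pow_succ]
    have h7 := h6 (orderOf e)
    rw [pow_orderOf_eq_one, map_one, MulAut.one_apply] at h7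
    have h8 : n ^ orderOf e = 1 := mul_eq_right.1 h7.symm
    have h9 : Nat.Coprime (orderOf e) (orderOf n) := by
      obtain ⟨k, hk⟩ := hV n
      have hprime : ℓ.Prime := Fact.out
      have h10 : orderOf n ∣ ℓ ^ k := orderOf_dvd_of_pow_eq_one hk
      have h11 : Nat.Coprime ℓ (orderOf e) := by
        rw [Nat.Prime.coprime_iff_not_dvd hprime]
        intro h
        exact hE (h.trans (orderOf_dvd_natCard e))
      exact (Nat.Coprime.pow_left k h11).symm.coprime_dvd_right h10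
    have h12 : orderOf n ∣ orderOf e := orderOf_dvd_of_pow_eq_one h8
    have h13 : orderOf n = 1 := by
      have := Nat.Coprime.eq_one_of_dvd h9.symm h12
      exact this
    rw [orderOf_eq_one_iff] at h13
    rw [h13, one_mul] at h1
    exact h1
  -- the section
  have hrep : ∀ q : Qn N Ω, ∃ q0 : Qn N Ω, ∃ v : V,
      (((v : V ⧸ N), (v : V ⧸ N)) : (V ⧸ N) × (V ⧸ N)) • q0 = q := fun q =>
    ⟨q, 1, one_smul _ q⟩
  obtain ⟨rep, hrep1, hrep2⟩ : ∃ rep : Qn N Ω → Qn N Ω,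
      (∀ q, ∃ v : V, (((v : V ⧸ N), (v : V ⧸ N)) : (V ⧸ N) × (V ⧸ N)) • rep q = q) ∧
      ∀ (v : V) q, rep ((((v : V ⧸ N), (v : V ⧸ N)) : (V ⧸ N) × (V ⧸ N)) • q) = rep q := by
    refine ⟨fun q => @Classical.epsilon (Qn N Ω) ⟨q⟩ (fun q0 => ∃ v : V,
      (((v : V ⧸ N), (v : V ⧸ N)) : (V ⧸ N) × (V ⧸ N)) • q0 = q), ?_, ?_⟩
    · intro q
      exact Classical.epsilon_spec (hrep q)
    · intro w q
      have h1 : (fun q0 : Qn N Ω => ∃ v : V, (((v : V ⧸ N), (v : V ⧸ N)) : (V ⧸ N) × (V ⧸ N)) • q0 =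
          (((w : V ⧸ N), (w : V ⧸ N)) : (V ⧸ N) × (V ⧸ N)) • q) =
          fun q0 : Qn N Ω => ∃ v : V, (((v : V ⧸ N), (v : V ⧸ N)) : (V ⧸ N) × (V ⧸ N)) • q0 = q := by
        funext q0
        refine propext ⟨?_, ?_⟩
        · rintro ⟨v, hv⟩
          refine ⟨w⁻¹ * v, ?_⟩
          rw [QuotientGroup.mk_mul, ← Prod.mk_mul_mk, ← smul_smul, hv, smul_smul,
            Prod.mk_mul_mk, QuotientGroup.mk_inv, inv_mul_cancel]
          exact one_smul _ q
        · rintro ⟨v, hv⟩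
          refine ⟨w * v, ?_⟩
          rw [QuotientGroup.mk_mul, ← Prod.mk_mul_mk, ← smul_smul, hv]
      show @Classical.epsilon (Qn N Ω) ⟨q⟩ _ = @Classical.epsilon (Qn N Ω) ⟨q⟩ _
      rw [h1]
  choose vv hvv using hrep1
  have hs1 : ∀ q, mkN N (((vv q, vv q) : V × V) • outN N (rep q)) = q := by
    intro q
    rw [← hsg, mkN_outN, hvv]
  have hs2 : ∀ (v : V) (q : Qn N Ω),
      ((vv ((((v : V ⧸ N), (v : V ⧸ N)) : (V ⧸ N) × (V ⧸ N)) • q),
        vv ((((v : V ⧸ N), (v : V ⧸ N)) : (V ⧸ N) × (V ⧸ N)) • q)) : V × V) •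
        outN N (rep ((((v : V ⧸ N), (v : V ⧸ N)) : (V ⧸ N) × (V ⧸ N)) • q)) =
      ((v, v) : V × V) • ((vv q, vv q) : V × V) • outN N (rep q) := by
    intro v q
    have h1 := hvv ((((v : V ⧸ N), (v : V ⧸ N)) : (V ⧸ N) × (V ⧸ N)) • q)
    rw [hrep2] at h1 ⊢
    set v' := vv ((((v : V ⧸ N), (v : V ⧸ N)) : (V ⧸ N) × (V ⧸ N)) • q) with hv'
    have h2 : (((v' : V ⧸ N), (v' : V ⧸ N)) : (V ⧸ N) × (V ⧸ N)) • rep q =
        (((v : V ⧸ N), (v : V ⧸ N)) : (V ⧸ N) × (V ⧸ N)) •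
        (((vv q : V ⧸ N), (vv q : V ⧸ N)) : (V ⧸ N) × (V ⧸ N)) • rep q := by
      rw [h1, hvv]
    have hd : ∀ x y : V, (((x * y : V) : V ⧸ N), ((x * y : V) : V ⧸ N)) =
        (((x : V ⧸ N), (x : V ⧸ N)) : (V ⧸ N) × (V ⧸ N)) * ((y : V ⧸ N), (y : V ⧸ N)) :=
      fun x y => rfl
    have h3 := hfix (v'⁻¹ * (v * vv q)) (outN N (rep q)) (by
      rw [mkN_outN, hd, hd, mul_smul, mul_smul, ← h2, smul_smul, ← hd, inv_mul_cancel]
      exact one_smul ((V ⧸ N) × (V ⧸ N)) (rep q))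
    have h4 : ((v', v') : V × V) • ((v'⁻¹ * (v * vv q), v'⁻¹ * (v * vv q)) : V × V) •
        outN N (rep q) = ((v', v') : V × V) • outN N (rep q) := by rw [h3]
    rw [← h4, smul_smul, smul_smul, Prod.mk_mul_mk, Prod.mk_mul_mk, mul_inv_cancel_left]
  set s : Qn N Ω → Ω := fun q => ((vv q, vv q) : V × V) • outN N (rep q) with hs
  -- the elements m
  have hm0 : ∀ ω : Ω, ∃ n : V, n ∈ N ∧ ω = ((n, 1) : V × V) • s (mkN N ω) := by
    intro ω
    obtain ⟨n, hn, h1⟩ := (mkN_eq N).1 (hs1 (mkN N ω))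
    exact ⟨n, hn, h1.symm⟩
  obtain ⟨m, hm1, hm2⟩ : ∃ m : Ω → V, (∀ ω, m ω ∈ N ∧ ω = ((m ω, 1) : V × V) • s (mkN N ω)) ∧
      ∀ (v : V) ω, m (((v, v) : V × V) • ω) = m ω := by
    refine ⟨fun ω => @Classical.epsilon V ⟨1⟩ (fun n => n ∈ N ∧
      ω = ((n, 1) : V × V) • s (mkN N ω)), fun ω => Classical.epsilon_spec (hm0 ω), ?_⟩
    intro v ω
    have h1 : (fun n : V => n ∈ N ∧ ((v, v) : V × V) • ω = ((n, 1) : V × V) •
        s (mkN N (((v, v) : V × V) • ω))) =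
        fun n : V => n ∈ N ∧ ω = ((n, 1) : V × V) • s (mkN N ω) := by
      funext n
      have h2 : s (mkN N (((v, v) : V × V) • ω)) = ((v, v) : V × V) • s (mkN N ω) := by
        rw [← hsg v v ω]
        exact hs2 v (mkN N ω)
      rw [h2, smul_smul, show ((n, 1) : V × V) * (v, v) = (v, v) * (n, 1) from mul_comm _ _,
        ← smul_smul, smul_left_cancel_iff]
    show @Classical.epsilon V ⟨1⟩ _ = @Classical.epsilon V ⟨1⟩ _
    rw [h1]
  refine ⟨Qn N Ω, fin, act, fun q => π (b (outN N q)), c', mkN N, s, m, ?_⟩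
  refine ⟨⟨?_, ?_, ?_⟩, ?_, hb', ?_, fun u v ω => hsg u v ω, hfix, hs1, hs2, fun ω => (hm1 ω).1,
    fun ω => (hm1 ω).2, hm2⟩
  · rintro ⟨g1, g2⟩ q
    obtain ⟨u, rfl⟩ := QuotientGroup.mk_surjective g1
    obtain ⟨v, rfl⟩ := QuotientGroup.mk_surjective g2
    show π (b (outN N ((((u : V ⧸ N), (v : V ⧸ N)) : (V ⧸ N) × (V ⧸ N)) • q))) =
      bw R αH ((u : V ⧸ N), (v : V ⧸ N)) (π (b (outN N q)))
    rw [hbw, ← hb1, ← hb' (((u, v) : V × V) • outN N q), ← hsg, mkN_outN]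
  · rintro ⟨g1, g2⟩ q h
    obtain ⟨u, rfl⟩ := QuotientGroup.mk_surjective g1
    obtain ⟨v, rfl⟩ := QuotientGroup.mk_surjective g2
    obtain ⟨a, rfl⟩ := hsurj h
    rw [hbw, hc', hc', hsum]
  · intro h
    obtain ⟨a, rfl⟩ := hsurj h
    have h1 : ∀ q : Qn N Ω, c' q (π a) • π (b (outN N q)) =
        ∑ ω ∈ Finset.univ.filter (fun ω => mkN N ω = q), c ω a • π (b ω) := by
      intro q
      rw [hc', Finset.sum_smul]
      refine Finset.sum_congr rfl fun ω hω => ?_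
      rw [Finset.mem_filter] at hω
      rw [← hω.2, hb']
    rw [Finset.sum_congr rfl fun q _ => h1 q,
      Finset.sum_fiberwise Finset.univ (mkN N) (fun ω => c ω a • π (b ω))]
    conv_rhs => rw [← hfr a, map_sum]
    exact Finset.sum_congr rfl fun ω _ => (map_smul _ _ _).symm
  · intro q
    obtain ⟨e, S, hS⟩ := hst (outN N q)
    refine ⟨e, S.map (QuotientGroup.mk' N), ?_⟩
    ext ⟨g1, g2⟩
    obtain ⟨u, rfl⟩ := QuotientGroup.mk_surjective g1
    obtain ⟨v, rfl⟩ := QuotientGroup.mk_surjective g2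
    have hq : mkN N (outN N q) = q := mkN_outN N q
    constructor
    · intro h
      have h1 : (((u : V ⧸ N), (v : V ⧸ N)) : (V ⧸ N) × (V ⧸ N)) • q = q := h
      rw [← hq, hsg] at h1
      obtain ⟨n, hn, h2⟩ := (mkN_eq N).1 h1
      rw [smul_smul, Prod.mk_mul_mk, one_mul] at h2
      have h3 : ((n * u, v) : V × V) ∈ MulAction.stabilizer (V × V) (outN N q) := h2
      rw [hS] at h3
      obtain ⟨x, hx, h4⟩ := h3
      have h5 : φ e x = n * u ∧ x = v := Prod.mk.inj h4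
      obtain ⟨h6, rfl⟩ := h5
      refine ⟨(x : V ⧸ N), ⟨x, hx, rfl⟩, ?_⟩
      show ((φH e (x : V ⧸ N), (x : V ⧸ N)) : (V ⧸ N) × (V ⧸ N)) = _
      rw [hφH, h6, QuotientGroup.mk_mul, (QuotientGroup.eq_one_iff n).2 hn, one_mul]
    · rintro ⟨y, ⟨x, hx, rfl⟩, h4⟩
      have h5 : ((φH e (x : V ⧸ N), (x : V ⧸ N)) : (V ⧸ N) × (V ⧸ N)) =
        ((u : V ⧸ N), (v : V ⧸ N)) := h4
      have h6 : ((φ e x, x) : V × V) ∈ MulAction.stabilizer (V × V) (outN N q) := by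
        rw [hS]
        exact ⟨x, hx, rfl⟩
      have h7 : ((φ e x, x) : V × V) • outN N q = outN N q := h6
      show (((u : V ⧸ N), (v : V ⧸ N)) : (V ⧸ N) × (V ⧸ N)) • q = q
      rw [← h5, hφH, ← hq, hsg, h7]
  · intro q a
    exact hc' q a

end Pool.Agent.PST.UC.H87
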