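import Pool.Agent.PST.StmtsET1

/-!
# Squad PST, block ET, row TSF: the form `cf 1` is a symmetrising form
-/

set_option autoImplicit false

open scoped BigOperators TensorProduct

noncomputable section

namespace Pool.Agent.PST.ET.H87

open Pool.Agent.PFD.D2 (Cdv FibG)

theorem tsf : TsfStmt := by
  intro R F V S _ _ _ _ _ _ _ c σ cf h
  obtain ⟨hb1, hb2, hone, hmul⟩ := h
  set G : Matrix V V R := Matrix.of fun u v => cf 1 (σ u * σ v) with hG
  have hGs : ∀ u v, G u v = G v u := by
    intro u v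
    show cf 1 (σ u * σ v) = cf 1 (σ v * σ u)
    rw [mul_comm]
  set P : Matrix V V F := Matrix.of fun u v => if u * v = 1 then 1 else 0 with hP
  have hκπ : c.κ c.π = 0 := (c.ker _).2 ⟨1, (mul_one _).symm⟩
  have hκG : c.κ.mapMatrix G = P := by
    ext u v
    show c.κ (cf 1 (σ u * σ v)) = if u * v = 1 then 1 else 0
    obtain ⟨d, hd⟩ := hmul u v
    rw [hd, map_add, map_smul, hb2, map_add, smul_eq_mul, map_mul, hκπ, zero_mul, add_zero]
    by_cases h1 : u * v = 1
    · rw [if_pos h1, if_pos h1.symm, map_one]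
    · rw [if_neg h1, if_neg fun h2 => h1 h2.symm, map_zero]
  have hPP : P * P = 1 := by
    ext u w
    rw [Matrix.mul_apply, Finset.sum_eq_single u⁻¹]
    · show (if u * u⁻¹ = 1 then (1 : F) else 0) * (if u⁻¹ * w = 1 then 1 else 0) = _
      rw [if_pos (mul_inv_cancel u), one_mul, Matrix.one_apply]
      by_cases h1 : u = w
      · rw [if_pos h1, if_pos (by rw [h1, inv_mul_cancel])]
      · rw [if_neg h1, if_neg fun h2 => h1 (inv_mul_eq_one.1 h2)]
    · intro v _ hv
      show (if u * v = 1 then (1 : F) else 0) * _ = 0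
      rw [if_neg fun h1 => hv (eq_inv_of_mul_eq_one_right h1), zero_mul]
    · intro h1
      exact absurd (Finset.mem_univ _) h1
  have hdet : IsUnit G.det := by
    refine c.loc _ ?_
    rw [RingHom.map_det, hκG]
    intro h1
    have h2 := congrArg Matrix.det hPP
    rw [Matrix.det_mul, h1, Matrix.det_one, zero_mul] at h2
    exact zero_ne_one h2
  have hNG : G⁻¹ * G = 1 := Matrix.nonsing_inv_mul _ hdet
  have hGN : G * G⁻¹ = 1 := Matrix.mul_nonsing_inv _ hdet
  have hcf : ∀ (u : V) (k : V → R), cf u (∑ w, k w • σ w) = k u := by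
    intro u k
    rw [map_sum, Finset.sum_eq_single u]
    · rw [map_smul, hb2, if_pos rfl, smul_eq_mul, mul_one]
    · intro w _ hw
      rw [map_smul, hb2, if_neg hw.symm, smul_zero]
    · intro h1
      exact absurd (Finset.mem_univ _) h1
  -- the pairing
  have hpair : ∀ (x : S) (s : S), cf 1 (x * s) = ∑ w, cf w s * cf 1 (x * σ w) := by
    intro x s
    conv_lhs => rw [← hb1 s, Finset.mul_sum, map_sum]
    refine Finset.sum_congr rfl fun w _ => ?_
    rw [mul_smul_comm, map_smul, smul_eq_mul]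
  have hdual : ∀ v w, cf 1 ((∑ u, G⁻¹ v u • σ u) * σ w) = if v = w then 1 else 0 := by
    intro v w
    have h1 := congrFun (congrFun hNG v) w
    rw [Matrix.mul_apply, Matrix.one_apply] at h1
    rw [← h1, Finset.sum_mul, map_sum]
    refine Finset.sum_congr rfl fun u _ => ?_
    rw [smul_mul_assoc, map_smul, smul_eq_mul]
    rfl
  refine ⟨fun v => ∑ u, G⁻¹ v u • σ u, ?_, ?_, ?_⟩
  · intro s
    conv_rhs => rw [← hb1 s]
    refine Finset.sum_congr rfl fun v _ => ?_
    congr 1
    rw [hpair, Finset.sum_eq_single v]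
    · rw [hdual, if_pos rfl, mul_one]
    · intro w _ hw
      rw [hdual, if_neg hw.symm, mul_zero]
    · intro h1
      exact absurd (Finset.mem_univ _) h1
  · intro s
    have h1 : ∑ v, cf 1 (σ v * s) • ∑ u, G⁻¹ v u • σ u =
        ∑ u, (∑ v, cf 1 (σ v * s) * G⁻¹ v u) • σ u := by
      have h2 : ∀ v, cf 1 (σ v * s) • ∑ u, G⁻¹ v u • σ u =
          ∑ u, (cf 1 (σ v * s) * G⁻¹ v u) • σ u := by
        intro v
        rw [Finset.smul_sum]
        exact Finset.sum_congr rfl fun u _ => smul_smul _ _ _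
      rw [Finset.sum_congr rfl fun v _ => h2 v, Finset.sum_comm]
      exact Finset.sum_congr rfl fun u _ => (Finset.sum_smul).symm
    rw [h1]
    conv_rhs => rw [← hb1 s]
    refine Finset.sum_congr rfl fun u _ => ?_
    congr 1
    have h3 : ∀ v, cf 1 (σ v * s) * G⁻¹ v u = ∑ w, cf w s * (G w v * G⁻¹ v u) := by
      intro v
      rw [hpair, Finset.sum_mul]
      refine Finset.sum_congr rfl fun w _ => ?_
      rw [mul_assoc, hGs w v]
      rfl
    rw [Finset.sum_congr rfl fun v _ => h3 v, Finset.sum_comm]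
    have h4 : ∀ w, ∑ v, cf w s * (G w v * G⁻¹ v u) = cf w s * (if w = u then 1 else 0) := by
      intro w
      rw [← Finset.mul_sum, ← Matrix.mul_apply, hGN, Matrix.one_apply]
    rw [Finset.sum_congr rfl fun w _ => h4 w, Finset.sum_eq_single u]
    · rw [if_pos rfl, mul_one]
    · intro w _ hw
      rw [if_neg hw, mul_zero]
    · intro h5
      exact absurd (Finset.mem_univ _) h5
  · intro u v
    rw [hcf u (fun w => G⁻¹ v w)]
    have h1 : c.κ.mapMatrix G⁻¹ = P := by
      have h2 : c.κ.mapMatrix G⁻¹ * P = 1 := by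
        rw [← hκG, ← map_mul, hNG, map_one]
      calc c.κ.mapMatrix G⁻¹ = c.κ.mapMatrix G⁻¹ * (P * P) := by rw [hPP, mul_one]
        _ = P := by rw [← mul_assoc, h2, one_mul]
    have h3 : c.κ (G⁻¹ v u) = P v u := by
      rw [← h1]
      rfl
    rw [h3]
    show (if v * u = 1 then (1 : F) else 0) = _
    by_cases h4 : u = v⁻¹
    · rw [if_pos h4, if_pos (by rw [h4, mul_inv_cancel])]
    · rw [if_neg h4, if_neg fun h5 => h4 (eq_inv_of_mul_eq_one_right h5)]

end Pool.Agent.PST.ET.H87
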